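import Pool.Agent.L5helper85.NB.Four

/-!
# Four bodies near a binary collision: finite measure of the nonwandering points

Let `q*` be a configuration of four bodies with exactly one collision, a binary one. Near `q*` the
Liouville measure of every energy surface is infinite, but the set of the nonwandering points near `q*`
has finite Liouville measure, for every energy and all masses. (For three bodies the Liouville measure
near a binary collision is finite.)

Proof: near `q*` the density of the Liouville measure is of the order `r ^ (-7/2)`, where `r` is the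
distance of the close pair, and this is not integrable in space. The estimate of the nonwandering momenta
over a configuration (`Pool.Agent.N775.NW`) gives the factor `r ^ (3/2)`, and `r ^ (-2)` is integrable.
-/

set_option autoImplicit false

open MeasureTheory

namespace Pool.Agent.Results.MP_70f7a7_an.FourBodyBinaryCollision

/-- The space `R³`. -/
abbrev R3 : Type := EuclideanSpace ℝ (Fin 3)

/-- Phase space: pairs (positions, momenta) of `N` bodies. -/
abbrev Phase (N : ℕ) : Type := (Fin N → R3) × (Fin N → R3)

/-- Kinetic energy of the momenta `p`. -/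
noncomputable def kinetic {N : ℕ} (m : Fin N → ℝ) (p : Fin N → R3) : ℝ :=
  ∑ i, ‖p i‖ ^ 2 / (2 * m i)

/-- The Newtonian potential `U(q) = ∑_{i<j} m_i m_j / |q_i - q_j|` (the energy is
kinetic energy minus `U`). -/
noncomputable def potential {N : ℕ} (m : Fin N → ℝ) (q : Fin N → R3) : ℝ :=
  ∑ i, ∑ j, m i * m j / ‖q i - q j‖ / 2

/-- The energy surface `H = E` of the reduced `N`-body problem (centre of mass `0`, total
momentum `0`, no collisions). -/
def surface {N : ℕ} (m : Fin N → ℝ) (E : ℝ) : Set (Phase N) :=
  {x | (∀ i j, i ≠ j → x.1 i ≠ x.1 j) ∧ ∑ i, m i • x.1 i = 0 ∧ ∑ i, x.2 i = 0 ∧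
    kinetic m x.2 - potential m x.1 = E}

/-- `φ` is the complete flow on the energy surface obtained from the `N`-body flow by a smooth
positive change of time `ψ`. -/
structure IsReparametrizedFlow {N : ℕ} (m : Fin N → ℝ) (E : ℝ) (ψ : Phase N → ℝ)
    (φ : ℝ → Phase N → Phase N) : Prop where
  /-- `ψ` is smooth outside collisions -/
  smooth : ContDiffOn ℝ ((⊤ : ℕ∞) : WithTop ℕ∞) ψ {x | ∀ i j, i ≠ j → x.1 i ≠ x.1 j}
  /-- `ψ` is positive outside collisions -/
  pos : ∀ x : Phase N, (∀ i j, i ≠ j → x.1 i ≠ x.1 j) → 0 < ψ x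
  /-- orbits exist for all times and solve the reparametrized equations of motion -/
  flow : ∀ x ∈ surface m E, φ 0 x = x ∧ ∀ t : ℝ, φ t x ∈ surface m E ∧
    HasDerivAt (fun s : ℝ => φ s x)
      (ψ (φ t x) • ((fun i => (m i)⁻¹ • (φ t x).2 i),
        (fun i => ∑ j, (m i * m j / ‖(φ t x).1 j - (φ t x).1 i‖ ^ 3) •
          ((φ t x).1 j - (φ t x).1 i)))) t

/-- `x` is a nonwandering point of the flow `φ` on the energy surface `S`. -/
def IsNonwandering {N : ℕ} (S : Set (Phase N)) (φ : ℝ → Phase N → Phase N) (x : Phase N) : Prop :=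
  ∀ V : Set (Phase N), IsOpen V → x ∈ V → ∀ T : ℝ, ∃ t : ℝ, T < t ∧ ∃ y ∈ V ∩ S, φ t y ∈ V

/-- The momenta `(P_1, ..., P_n, -P_1 - ... - P_n)` of `n + 1` bodies. -/
noncomputable def momenta {n : ℕ} (P : Fin n → R3) : Fin (n + 1) → R3 := Fin.snoc P (-∑ i, P i)

/-- The same momenta scaled so that their kinetic energy is `K`. -/
noncomputable def scaled {n : ℕ} (m : Fin (n + 1) → ℝ) (K : ℝ) (P : Fin n → R3) :
    Fin (n + 1) → R3 :=
  Real.sqrt (K / kinetic m (momenta P)) • momenta P

/-- The configuration with centre of mass `0` in which the first `n` of the `n + 1` bodies are at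
`x_1, ..., x_n`. -/
noncomputable def configuration {n : ℕ} (m : Fin (n + 1) → ℝ) (x : Fin n → R3) :
    Fin (n + 1) → R3 :=
  Fin.snoc x (-((m (Fin.last n))⁻¹ • ∑ i : Fin n, m i.castSucc • x i))

/-- The Liouville measure of the energy surface `H = E` of the reduced problem of `n + 1` bodies, up
to a constant factor: `K ^ ((3 n - 2) / 2) dx dω`, where `x` runs over the positions of the first `n`
bodies, `K = U + E > 0` is the kinetic energy, and `dω` is the cone measure of the set of momenta of
kinetic energy `K`, i.e. the Lebesgue measure of the cone over the set, scaled to kinetic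
energy `≤ 1`. -/
noncomputable def liouville {n : ℕ} (m : Fin (n + 1) → ℝ) (E : ℝ) (A : Set (Phase (n + 1))) :
    ENNReal :=
  ∫⁻ x : Fin n → R3,
    if 0 < potential m (configuration m x) + E then
      ENNReal.ofReal ((potential m (configuration m x) + E) ^ ((3 * (n : ℝ) - 2) / 2)) *
        volume {P : Fin n → R3 | kinetic m (momenta P) ≤ 1 ∧
          (configuration m x, scaled m (potential m (configuration m x) + E) P) ∈ A}
    else 0

/-- The part of the energy surface on which the positions are within `ε` of those of `q₀`. -/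
def near {N : ℕ} (m : Fin N → ℝ) (E : ℝ) (q₀ : Fin N → R3) (ε : ℝ) : Set (Phase N) :=
  {z | z ∈ surface m E ∧ ∀ i, ‖z.1 i - q₀ i‖ < ε}

theorem liouville_eq (m : Fin 4 → ℝ) (E : ℝ) (A : Set (Phase 4)) :
    liouville (n := 3) m E A = Pool.Agent.L5helper85.NB.lv (n := 3) m E (7 / 2) A := by
  have h : (3 * ((3 : ℕ) : ℝ) - 2) / 2 = 7 / 2 := by norm_num
  unfold liouville Pool.Agent.L5helper85.NB.lv
  rw [h]
  rfl

/-- **Four bodies near a binary collision.** For all masses, every energy `E` and every configuration
`q₀` with centre of mass `0` in which the bodies `a` and `b` coincide and all other pairs of bodies are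
apart, every neighbourhood of `q₀` contains a part of infinite Liouville measure of the energy surface,
but for some `ε > 0` and every complete flow obtained from the four-body flow on `H = E` by a smooth
positive change of time the nonwandering points within `ε` of `q₀` form a set of finite Liouville
measure. -/
theorem result (m : Fin 4 → ℝ) (hm : ∀ i, 0 < m i) (E : ℝ) (q₀ : Fin 4 → R3)
    (hq₀ : ∑ i, m i • q₀ i = 0) (a b : Fin 4) (hab : a ≠ b) (heq : q₀ a = q₀ b)
    (hne : ∀ i j, i ≠ j → ¬(i = a ∧ j = b) → ¬(i = b ∧ j = a) → q₀ i ≠ q₀ j) :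
    (∀ ε : ℝ, 0 < ε → liouville (n := 3) m E (near m E q₀ ε) = ⊤) ∧
    ∃ ε : ℝ, 0 < ε ∧ ∀ (ψ : Phase 4 → ℝ) (φ : ℝ → Phase 4 → Phase 4),
      IsReparametrizedFlow m E ψ φ →
        liouville (n := 3) m E {z | z ∈ near m E q₀ ε ∧ IsNonwandering (surface m E) φ z} < ⊤ := by
  refine ⟨fun ε hε => ?_, ?_⟩
  · rw [liouville_eq]
    exact Pool.Agent.L5helper85.NB.four_inf m hm E q₀ hq₀ a b hab heq ε hε
  · obtain ⟨ε, hε, h⟩ := Pool.Agent.L5helper85.NB.four_fin m hm E q₀ a b hab heq
      (fun i j hij => hne i j hij.1 hij.2.1 hij.2.2)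
    refine ⟨ε, hε, fun ψ φ hφ => ?_⟩
    rw [liouville_eq]
    exact h ψ φ ⟨hφ.smooth.continuousOn, hφ.pos, hφ.flow⟩

end Pool.Agent.Results.MP_70f7a7_an.FourBodyBinaryCollision
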