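import Pool.Agent.L5helper62.NB.Loc2

/-!
# `N ≥ 5` bodies near a binary collision: the nonwandering points have density zero

Let `q*` be a configuration of `N ≥ 5` bodies with exactly one collision, a binary one, and let `E` be
any energy.  The part of the energy surface near `q*` with kinetic energy at most `κ` has Liouville
measure of the exact order `κ ^ ((3 N - 11) / 2)`, and the proportion of the nonwandering points in it
is `O(κ ^ (-3/2))`.  (For four bodies the nonwandering points near `q*` have finite measure: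
`FourBodyBinaryCollision`.)

Proof: near `q*` the density of the Liouville measure is of the order `r ^ (-(3 N - 5) / 2)`, where `r`
is the distance of the close pair, and `κ` is of the order `1 / r`.  The estimate of the nonwandering
momenta over a configuration (`Pool.Agent.N775.NW`) gives the factor `r ^ (3 / 2)`; both densities are
integrated in the coordinates (difference of the close pair, positions of the remaining bodies).
-/

set_option autoImplicit false

open MeasureTheory

namespace Pool.Agent.Results.MP_70f7a7_an.NBodyBinaryCollision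

/-- The space `R³`. -/
abbrev R3 : Type := EuclideanSpace ℝ (Fin 3)

/-- Phase space: pairs (positions, momenta) of `N` bodies. -/
abbrev Phase (N : ℕ) : Type := (Fin N → R3) × (Fin N → R3)

/-- Kinetic energy of the momenta `p`. -/
noncomputable def kinetic {N : ℕ} (m : Fin N → ℝ) (p : Fin N → R3) : ℝ :=
  ∑ i, ‖p i‖ ^ 2 / (2 * m i)

/-- The Newtonian potential `U(q) = ∑_{i<j} m_i m_j / |q_i - q_j|` (the energy is
kinetic energy minus `U`). -/
noncomputable def potential {N : ℕ} (m : Fin N → ℝ) (q : Fin N → R3) : ℝ :=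
  ∑ i, ∑ j, m i * m j / ‖q i - q j‖ / 2

/-- The energy surface `H = E` of the reduced `N`-body problem (centre of mass `0`, total
momentum `0`, no collisions). -/
def surface {N : ℕ} (m : Fin N → ℝ) (E : ℝ) : Set (Phase N) :=
  {x | (∀ i j, i ≠ j → x.1 i ≠ x.1 j) ∧ ∑ i, m i • x.1 i = 0 ∧ ∑ i, x.2 i = 0 ∧
    kinetic m x.2 - potential m x.1 = E}

/-- `φ` is the complete flow on the energy surface obtained from the `N`-body flow by a smooth
positive change of time `ψ`. -/
structure IsReparametrizedFlow {N : ℕ} (m : Fin N → ℝ) (E : ℝ) (ψ : Phase N → ℝ)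
    (φ : ℝ → Phase N → Phase N) : Prop where
  /-- `ψ` is smooth outside collisions -/
  smooth : ContDiffOn ℝ ((⊤ : ℕ∞) : WithTop ℕ∞) ψ {x | ∀ i j, i ≠ j → x.1 i ≠ x.1 j}
  /-- `ψ` is positive outside collisions -/
  pos : ∀ x : Phase N, (∀ i j, i ≠ j → x.1 i ≠ x.1 j) → 0 < ψ x
  /-- orbits exist for all times and solve the reparametrized equations of motion -/
  flow : ∀ x ∈ surface m E, φ 0 x = x ∧ ∀ t : ℝ, φ t x ∈ surface m E ∧
    HasDerivAt (fun s : ℝ => φ s x)
      (ψ (φ t x) • ((fun i => (m i)⁻¹ • (φ t x).2 i),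
        (fun i => ∑ j, (m i * m j / ‖(φ t x).1 j - (φ t x).1 i‖ ^ 3) •
          ((φ t x).1 j - (φ t x).1 i)))) t

/-- `x` is a nonwandering point of the flow `φ` on the energy surface `S`. -/
def IsNonwandering {N : ℕ} (S : Set (Phase N)) (φ : ℝ → Phase N → Phase N) (x : Phase N) : Prop :=
  ∀ V : Set (Phase N), IsOpen V → x ∈ V → ∀ T : ℝ, ∃ t : ℝ, T < t ∧ ∃ y ∈ V ∩ S, φ t y ∈ V

/-- The momenta `(P_1, ..., P_n, -P_1 - ... - P_n)` of `n + 1` bodies. -/
noncomputable def momenta {n : ℕ} (P : Fin n → R3) : Fin (n + 1) → R3 := Fin.snoc P (-∑ i, P i)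

/-- The same momenta scaled so that their kinetic energy is `K`. -/
noncomputable def scaled {n : ℕ} (m : Fin (n + 1) → ℝ) (K : ℝ) (P : Fin n → R3) :
    Fin (n + 1) → R3 :=
  Real.sqrt (K / kinetic m (momenta P)) • momenta P

/-- The configuration with centre of mass `0` in which the first `n` of the `n + 1` bodies are at
`x_1, ..., x_n`. -/
noncomputable def configuration {n : ℕ} (m : Fin (n + 1) → ℝ) (x : Fin n → R3) :
    Fin (n + 1) → R3 :=
  Fin.snoc x (-((m (Fin.last n))⁻¹ • ∑ i : Fin n, m i.castSucc • x i))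

/-- The Liouville measure of the energy surface `H = E` of the reduced problem of `n + 1` bodies, up
to a constant factor: `K ^ ((3 n - 2) / 2) dx dω`, where `x` runs over the positions of the first `n`
bodies, `K = U + E > 0` is the kinetic energy, and `dω` is the cone measure of the set of momenta of
kinetic energy `K`, i.e. the Lebesgue measure of the cone over the set, scaled to kinetic
energy `≤ 1`. -/
noncomputable def liouville {n : ℕ} (m : Fin (n + 1) → ℝ) (E : ℝ) (A : Set (Phase (n + 1))) :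
    ENNReal :=
  ∫⁻ x : Fin n → R3,
    if 0 < potential m (configuration m x) + E then
      ENNReal.ofReal ((potential m (configuration m x) + E) ^ ((3 * (n : ℝ) - 2) / 2)) *
        volume {P : Fin n → R3 | kinetic m (momenta P) ≤ 1 ∧
          (configuration m x, scaled m (potential m (configuration m x) + E) P) ∈ A}
    else 0

/-- The part of the energy surface on which the positions are within `ε` of those of `q₀` and the
kinetic energy is at most `κ`. -/
def part {N : ℕ} (m : Fin N → ℝ) (E : ℝ) (q₀ : Fin N → R3) (ε κ : ℝ) : Set (Phase N) :=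
  {z | z ∈ surface m E ∧ (∀ i, ‖z.1 i - q₀ i‖ < ε) ∧ kinetic m z.2 ≤ κ}

theorem liouville_eq {n : ℕ} (m : Fin (n + 1) → ℝ) (E : ℝ) (A : Set (Phase (n + 1))) :
    liouville m E A = Pool.Agent.L5helper85.NB.lv m E ((3 * (n : ℝ) - 2) / 2) A := rfl

/-- **`N = n + 1 ≥ 5` bodies near a binary collision.** For all masses, every energy `E` and every
configuration `q₀` with centre of mass `0` in which the bodies `a` and `b` coincide and all other pairs
of bodies are apart there is `ε₀ > 0` such that for all `ε` in `(0, ε₀]` there is `C > 0` with the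
following properties for all `κ ≥ C`.  The part `B` of the energy surface with all positions within `ε`
of those of `q₀` and kinetic energy at most `κ` has Liouville measure between
`κ ^ ((3 n - 8) / 2) / C` and `C κ ^ ((3 n - 8) / 2)`, and for every complete flow obtained from the
`N`-body flow on `H = E` by a smooth positive change of time the nonwandering points in `B` have
Liouville measure at most `C κ ^ (-3 / 2)` times that of `B`. -/
theorem result (n : ℕ) (hn : 4 ≤ n) (m : Fin (n + 1) → ℝ) (hm : ∀ i, 0 < m i) (E : ℝ)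
    (q₀ : Fin (n + 1) → R3) (hq₀ : ∑ i, m i • q₀ i = 0) (a b : Fin (n + 1)) (hab : a ≠ b)
    (heq : q₀ a = q₀ b)
    (hne : ∀ i j, i ≠ j → ¬(i = a ∧ j = b) → ¬(i = b ∧ j = a) → q₀ i ≠ q₀ j) :
    ∃ ε₀ : ℝ, 0 < ε₀ ∧ ∀ ε : ℝ, 0 < ε → ε ≤ ε₀ → ∃ C : ℝ, 0 < C ∧ ∀ κ : ℝ, C ≤ κ →
      ENNReal.ofReal (κ ^ ((3 * (n : ℝ) - 8) / 2) / C) ≤ liouville m E (part m E q₀ ε κ) ∧
      liouville m E (part m E q₀ ε κ) ≤ ENNReal.ofReal (C * κ ^ ((3 * (n : ℝ) - 8) / 2)) ∧
      ∀ (ψ : Phase (n + 1) → ℝ) (φ : ℝ → Phase (n + 1) → Phase (n + 1)),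
        IsReparametrizedFlow m E ψ φ →
        liouville m E {z | z ∈ part m E q₀ ε κ ∧ IsNonwandering (surface m E) φ z} ≤
          ENNReal.ofReal (C / κ ^ (3 / 2 : ℝ)) * liouville m E (part m E q₀ ε κ) := by
  have hn' : (4 : ℝ) ≤ n := by exact_mod_cast hn
  have he3 : (3 * (n : ℝ) - 2) / 2 - 3 = (3 * (n : ℝ) - 8) / 2 := by ring
  obtain ⟨ε₁, hε₁, h1⟩ := Pool.Agent.L5helper62.NB.local_main (by omega) m hm
    ((3 * (n : ℝ) - 2) / 2) (by linarith) E q₀ hq₀ a b hab heq
    (fun i j hij => hne i j hij.1 hij.2.1 hij.2.2)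
  rw [he3] at h1
  refine ⟨ε₁, hε₁, fun ε hε0 hε => ?_⟩
  obtain ⟨C, hC, h3⟩ := h1 ε hε0 hε
  refine ⟨C, hC, fun κ hκ => ?_⟩
  obtain ⟨h4, h5, h6⟩ := h3 κ hκ
  exact ⟨h4, h5, fun ψ φ hφ => h6 ψ φ ⟨hφ.smooth.continuousOn, hφ.pos, hφ.flow⟩⟩

end Pool.Agent.Results.MP_70f7a7_an.NBodyBinaryCollision
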