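import Pool.Agent.L5helper86.NB.Fin

/-!
# `N` bodies with negative energy: the nonwandering points have density zero

For `N ≥ 4` bodies with arbitrary masses and every energy `E < 0` the part `B` of the energy surface
with all bodies within `R` of the centre of mass and kinetic energy at most `κ` has Liouville measure of
the exact order `κ ^ ((3 N - 11) / 2) * R ^ (3 (N - 2))`, and the proportion of the nonwandering points
in it is at most `C / (|E| κ ^ (1 / 2) R ^ (3 / 2))`.

Proof: the estimate of the nonwandering momenta over a configuration (`Pool.Agent.N775.NW`, used with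
the closest pair and the second smallest distance) is integrated over all configurations, in the
coordinates (difference of the closest pair, difference which realizes the second distance, positions of
the remaining bodies).
-/

set_option autoImplicit false

open MeasureTheory

namespace Pool.Agent.Results.MP_70f7a7_an.NBodyDensityZero

/-- The space `R³`. -/
abbrev R3 : Type := EuclideanSpace ℝ (Fin 3)

/-- Phase space: pairs (positions, momenta) of `N` bodies. -/
abbrev Phase (N : ℕ) : Type := (Fin N → R3) × (Fin N → R3)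

/-- Kinetic energy of the momenta `p`. -/
noncomputable def kinetic {N : ℕ} (m : Fin N → ℝ) (p : Fin N → R3) : ℝ :=
  ∑ i, ‖p i‖ ^ 2 / (2 * m i)

/-- The Newtonian potential `U(q) = ∑_{i<j} m_i m_j / |q_i - q_j|` (the energy is
kinetic energy minus `U`). -/
noncomputable def potential {N : ℕ} (m : Fin N → ℝ) (q : Fin N → R3) : ℝ :=
  ∑ i, ∑ j, m i * m j / ‖q i - q j‖ / 2

/-- The energy surface `H = E` of the reduced `N`-body problem (centre of mass `0`, total
momentum `0`, no collisions). -/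
def surface {N : ℕ} (m : Fin N → ℝ) (E : ℝ) : Set (Phase N) :=
  {x | (∀ i j, i ≠ j → x.1 i ≠ x.1 j) ∧ ∑ i, m i • x.1 i = 0 ∧ ∑ i, x.2 i = 0 ∧
    kinetic m x.2 - potential m x.1 = E}

/-- `φ` is the complete flow on the energy surface obtained from the `N`-body flow by a smooth
positive change of time `ψ`. -/
structure IsReparametrizedFlow {N : ℕ} (m : Fin N → ℝ) (E : ℝ) (ψ : Phase N → ℝ)
    (φ : ℝ → Phase N → Phase N) : Prop where
  /-- `ψ` is smooth outside collisions -/
  smooth : ContDiffOn ℝ ((⊤ : ℕ∞) : WithTop ℕ∞) ψ {x | ∀ i j, i ≠ j → x.1 i ≠ x.1 j}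
  /-- `ψ` is positive outside collisions -/
  pos : ∀ x : Phase N, (∀ i j, i ≠ j → x.1 i ≠ x.1 j) → 0 < ψ x
  /-- orbits exist for all times and solve the reparametrized equations of motion -/
  flow : ∀ x ∈ surface m E, φ 0 x = x ∧ ∀ t : ℝ, φ t x ∈ surface m E ∧
    HasDerivAt (fun s : ℝ => φ s x)
      (ψ (φ t x) • ((fun i => (m i)⁻¹ • (φ t x).2 i),
        (fun i => ∑ j, (m i * m j / ‖(φ t x).1 j - (φ t x).1 i‖ ^ 3) •
          ((φ t x).1 j - (φ t x).1 i)))) t

/-- `x` is a nonwandering point of the flow `φ` on the energy surface `S`. -/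
def IsNonwandering {N : ℕ} (S : Set (Phase N)) (φ : ℝ → Phase N → Phase N) (x : Phase N) : Prop :=
  ∀ V : Set (Phase N), IsOpen V → x ∈ V → ∀ T : ℝ, ∃ t : ℝ, T < t ∧ ∃ y ∈ V ∩ S, φ t y ∈ V

/-- The momenta `(P_1, ..., P_n, -P_1 - ... - P_n)` of `n + 1` bodies. -/
noncomputable def momenta {n : ℕ} (P : Fin n → R3) : Fin (n + 1) → R3 := Fin.snoc P (-∑ i, P i)

/-- The same momenta scaled so that their kinetic energy is `K`. -/
noncomputable def scaled {n : ℕ} (m : Fin (n + 1) → ℝ) (K : ℝ) (P : Fin n → R3) :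
    Fin (n + 1) → R3 :=
  Real.sqrt (K / kinetic m (momenta P)) • momenta P

/-- The configuration with centre of mass `0` in which the first `n` of the `n + 1` bodies are at
`x_1, ..., x_n`. -/
noncomputable def configuration {n : ℕ} (m : Fin (n + 1) → ℝ) (x : Fin n → R3) :
    Fin (n + 1) → R3 :=
  Fin.snoc x (-((m (Fin.last n))⁻¹ • ∑ i : Fin n, m i.castSucc • x i))

/-- The Liouville measure of the energy surface `H = E` of the reduced problem of `n + 1` bodies, up
to a constant factor: `K ^ ((3 n - 2) / 2) dx dω`, where `x` runs over the positions of the first `n`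
bodies, `K = U + E > 0` is the kinetic energy, and `dω` is the cone measure of the set of momenta of
kinetic energy `K`, i.e. the Lebesgue measure of the cone over the set, scaled to kinetic
energy `≤ 1`. -/
noncomputable def liouville {n : ℕ} (m : Fin (n + 1) → ℝ) (E : ℝ) (A : Set (Phase (n + 1))) :
    ENNReal :=
  ∫⁻ x : Fin n → R3,
    if 0 < potential m (configuration m x) + E then
      ENNReal.ofReal ((potential m (configuration m x) + E) ^ ((3 * (n : ℝ) - 2) / 2)) *
        volume {P : Fin n → R3 | kinetic m (momenta P) ≤ 1 ∧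
          (configuration m x, scaled m (potential m (configuration m x) + E) P) ∈ A}
    else 0

/-- The part of the energy surface on which all bodies are within `R` of the centre of mass and the
kinetic energy is at most `κ`. -/
def part {N : ℕ} (m : Fin N → ℝ) (E R κ : ℝ) : Set (Phase N) :=
  {z | z ∈ surface m E ∧ (∀ i, ‖z.1 i‖ ≤ R) ∧ kinetic m z.2 ≤ κ}

theorem liouville_eq {n : ℕ} (m : Fin (n + 1) → ℝ) (E : ℝ) (A : Set (Phase (n + 1))) :
    liouville m E A = Pool.Agent.L5helper85.NB.lv m E ((3 * (n : ℝ) - 2) / 2) A := rfl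

/-- **`N = n + 1 ≥ 4` bodies, negative energy.** There is `C > 0`, depending on the masses only, such
that for every energy `E < 0`, every `κ ≥ |E|` and every `R ≥ C / |E|` the Liouville measure of the part
`B` of the energy surface with all bodies within `R` of the centre of mass and kinetic energy at most
`κ` lies between `κ ^ ((3 N - 11) / 2) R ^ (3 (N - 2)) / C` and `C κ ^ ((3 N - 11) / 2) R ^ (3 (N - 2))`,
and for every complete flow obtained from the `N`-body flow on `H = E` by a smooth positive change of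
time the set of the nonwandering points in `B` has Liouville measure at most
`C / (|E| κ ^ (1 / 2) R ^ (3 / 2))` times that of `B`. -/
theorem result (n : ℕ) (hn : 3 ≤ n) (m : Fin (n + 1) → ℝ) (hm : ∀ i, 0 < m i) :
    ∃ C : ℝ, 0 < C ∧ ∀ E : ℝ, E < 0 → ∀ κ : ℝ, |E| ≤ κ → ∀ R : ℝ, C / |E| ≤ R →
      ENNReal.ofReal (κ ^ ((3 * (n : ℝ) - 8) / 2) * R ^ (3 * (n - 1)) / C) ≤
        liouville m E (part m E R κ) ∧
      liouville m E (part m E R κ) ≤
        ENNReal.ofReal (C * κ ^ ((3 * (n : ℝ) - 8) / 2) * R ^ (3 * (n - 1))) ∧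
      ∀ (ψ : Phase (n + 1) → ℝ) (φ : ℝ → Phase (n + 1) → Phase (n + 1)),
        IsReparametrizedFlow m E ψ φ →
        liouville m E {z | z ∈ part m E R κ ∧ IsNonwandering (surface m E) φ z} ≤
          ENNReal.ofReal (C / (|E| * κ ^ (1 / 2 : ℝ) * R ^ (3 / 2 : ℝ))) *
            liouville m E (part m E R κ) := by
  have hn' : (3 : ℝ) ≤ n := by exact_mod_cast hn
  obtain ⟨C₁, hC₁, h₁⟩ := Pool.Agent.L5helper86.NB.lv_part_le (by omega) m hm
    ((3 * (n : ℝ) - 2) / 2) (by linarith)
  obtain ⟨C₂, hC₂, h₂⟩ := Pool.Agent.L5helper86.NB.lv_nonw_le (by omega) m hm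
    ((3 * (n : ℝ) - 2) / 2) (by linarith)
  obtain ⟨c, R₀, hc, hR₀, h₃⟩ := Pool.Agent.L5helper86.NB.lv_part_ge (by omega) m hm
    ((3 * (n : ℝ) - 2) / 2) (by linarith)
  have he3 : (3 * (n : ℝ) - 2) / 2 - 3 = (3 * (n : ℝ) - 8) / 2 := by ring
  rw [he3] at h₁ h₃
  refine ⟨C₁ + c⁻¹ + R₀ + C₂ / c, by positivity, ?_⟩
  intro E hE κ hκ R hR
  have hEp : 0 < |E| := abs_pos.2 hE.ne
  have hκp : 0 < κ := lt_of_lt_of_le hEp hκ
  have p1 : 0 < c⁻¹ := by positivity
  have p2 : 0 < C₂ / c := by positivity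
  have hRp : 0 < R := lt_of_lt_of_le (by positivity) hR
  have hR1 : R₀ / |E| ≤ R := by
    refine le_trans ?_ hR
    gcongr
    linarith
  have hlow := h₃ E κ R hE hκ hR1
  rw [liouville_eq]
  refine ⟨?_, ?_, ?_⟩
  · refine (ENNReal.ofReal_le_ofReal ?_).trans hlow
    rw [div_le_iff₀ (by positivity)]
    have h4 : 1 ≤ c * (C₁ + c⁻¹ + R₀ + C₂ / c) := by
      have : 1 = c * c⁻¹ := by field_simp
      rw [this]
      gcongr
      linarith
    have h5 : 0 ≤ κ ^ ((3 * (n : ℝ) - 8) / 2) * R ^ (3 * (n - 1)) := by positivity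
    calc κ ^ ((3 * (n : ℝ) - 8) / 2) * R ^ (3 * (n - 1)) =
        κ ^ ((3 * (n : ℝ) - 8) / 2) * R ^ (3 * (n - 1)) * 1 := by rw [mul_one]
      _ ≤ κ ^ ((3 * (n : ℝ) - 8) / 2) * R ^ (3 * (n - 1)) *
          (c * (C₁ + c⁻¹ + R₀ + C₂ / c)) := mul_le_mul_of_nonneg_left h4 h5
      _ = _ := by ring
  · refine (h₁ E κ R hE hκ hRp).trans (ENNReal.ofReal_le_ofReal ?_)
    gcongr
    linarith
  · intro ψ φ hφ
    rw [liouville_eq]
    refine (h₂ E κ R hE hκ hRp ψ φ ⟨hφ.smooth.continuousOn, hφ.pos, hφ.flow⟩).trans ?_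
    refine le_trans ?_ (mul_le_mul_right hlow _)
    rw [← ENNReal.ofReal_mul (by positivity)]
    refine ENNReal.ofReal_le_ofReal ?_
    have e1 : κ ^ ((3 * (n : ℝ) - 2) / 2 - 7 / 2) =
        κ ^ ((3 * (n : ℝ) - 8) / 2) / κ ^ (1 / 2 : ℝ) := by
      rw [← Real.rpow_sub hκp]
      congr 1
      ring
    have e2 : R ^ (-(3 / 2) : ℝ) = 1 / R ^ (3 / 2 : ℝ) := by
      rw [Real.rpow_neg hRp.le, one_div]
    rw [e1, e2]
    have h6 : C₂ ≤ (C₁ + c⁻¹ + R₀ + C₂ / c) * c := by
      have : C₂ = C₂ / c * c := by field_simp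
      calc C₂ = C₂ / c * c := this
        _ ≤ _ := by gcongr; linarith
    obtain ⟨X, hX⟩ : ∃ X, X = κ ^ ((3 * (n : ℝ) - 8) / 2) / κ ^ (1 / 2 : ℝ) * |E|⁻¹ *
      (1 / R ^ (3 / 2 : ℝ)) * R ^ (3 * (n - 1)) := ⟨_, rfl⟩
    have hX0 : 0 ≤ X := by rw [hX]; positivity
    calc C₂ * (κ ^ ((3 * (n : ℝ) - 8) / 2) / κ ^ (1 / 2 : ℝ)) * |E|⁻¹ *
          (1 / R ^ (3 / 2 : ℝ)) * R ^ (3 * (n - 1)) = C₂ * X := by rw [hX]; ring
      _ ≤ ((C₁ + c⁻¹ + R₀ + C₂ / c) * c) * X := mul_le_mul_of_nonneg_right h6 hX0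
      _ = _ := by
        rw [hX]
        field_simp

end Pool.Agent.Results.MP_70f7a7_an.NBodyDensityZero
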