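import Pool.Agent.L5helper85.NB.ThreeC

/-!
# Three bodies with negative energy: the nonwandering points have density zero

For three bodies with arbitrary masses and every energy `E < 0` the Liouville measure of the part
`B_R` of the energy surface with all bodies within `R` of the centre of mass is of the exact order
`R ^ 3 / |E|`, and the proportion of the nonwandering points in it is at most `(C / (|E| R)) ^ (3 / 2)`.

Proof: the estimate of the nonwandering momenta over a configuration (`Pool.Agent.N775.NW`, used with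
the closest pair; the other distances are then comparable with the distance of the third body from the
centre of mass) is integrated over all configurations, in the coordinates (difference of the close pair,
position of the third body).
-/

set_option autoImplicit false

open MeasureTheory

namespace Pool.Agent.Results.MP_70f7a7_an.ThreeBodyDensityZero

/-- The space `R³`. -/
abbrev R3 : Type := EuclideanSpace ℝ (Fin 3)

/-- Phase space: pairs (positions, momenta) of `N` bodies. -/
abbrev Phase (N : ℕ) : Type := (Fin N → R3) × (Fin N → R3)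

/-- Kinetic energy of the momenta `p`. -/
noncomputable def kinetic {N : ℕ} (m : Fin N → ℝ) (p : Fin N → R3) : ℝ :=
  ∑ i, ‖p i‖ ^ 2 / (2 * m i)

/-- The Newtonian potential `U(q) = ∑_{i<j} m_i m_j / |q_i - q_j|` (the energy is
kinetic energy minus `U`). -/
noncomputable def potential {N : ℕ} (m : Fin N → ℝ) (q : Fin N → R3) : ℝ :=
  ∑ i, ∑ j, m i * m j / ‖q i - q j‖ / 2

/-- The energy surface `H = E` of the reduced `N`-body problem (centre of mass `0`, total
momentum `0`, no collisions). -/
def surface {N : ℕ} (m : Fin N → ℝ) (E : ℝ) : Set (Phase N) :=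
  {x | (∀ i j, i ≠ j → x.1 i ≠ x.1 j) ∧ ∑ i, m i • x.1 i = 0 ∧ ∑ i, x.2 i = 0 ∧
    kinetic m x.2 - potential m x.1 = E}

/-- `φ` is the complete flow on the energy surface obtained from the `N`-body flow by a smooth
positive change of time `ψ`. -/
structure IsReparametrizedFlow {N : ℕ} (m : Fin N → ℝ) (E : ℝ) (ψ : Phase N → ℝ)
    (φ : ℝ → Phase N → Phase N) : Prop where
  /-- `ψ` is smooth outside collisions -/
  smooth : ContDiffOn ℝ ((⊤ : ℕ∞) : WithTop ℕ∞) ψ {x | ∀ i j, i ≠ j → x.1 i ≠ x.1 j}
  /-- `ψ` is positive outside collisions -/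
  pos : ∀ x : Phase N, (∀ i j, i ≠ j → x.1 i ≠ x.1 j) → 0 < ψ x
  /-- orbits exist for all times and solve the reparametrized equations of motion -/
  flow : ∀ x ∈ surface m E, φ 0 x = x ∧ ∀ t : ℝ, φ t x ∈ surface m E ∧
    HasDerivAt (fun s : ℝ => φ s x)
      (ψ (φ t x) • ((fun i => (m i)⁻¹ • (φ t x).2 i),
        (fun i => ∑ j, (m i * m j / ‖(φ t x).1 j - (φ t x).1 i‖ ^ 3) •
          ((φ t x).1 j - (φ t x).1 i)))) t

/-- `x` is a nonwandering point of the flow `φ` on the energy surface `S`. -/
def IsNonwandering {N : ℕ} (S : Set (Phase N)) (φ : ℝ → Phase N → Phase N) (x : Phase N) : Prop :=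
  ∀ V : Set (Phase N), IsOpen V → x ∈ V → ∀ T : ℝ, ∃ t : ℝ, T < t ∧ ∃ y ∈ V ∩ S, φ t y ∈ V

/-- The momenta `(P_1, ..., P_n, -P_1 - ... - P_n)` of `n + 1` bodies. -/
noncomputable def momenta {n : ℕ} (P : Fin n → R3) : Fin (n + 1) → R3 := Fin.snoc P (-∑ i, P i)

/-- The same momenta scaled so that their kinetic energy is `K`. -/
noncomputable def scaled {n : ℕ} (m : Fin (n + 1) → ℝ) (K : ℝ) (P : Fin n → R3) :
    Fin (n + 1) → R3 :=
  Real.sqrt (K / kinetic m (momenta P)) • momenta P

/-- The configuration with centre of mass `0` in which the first `n` of the `n + 1` bodies are at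
`x_1, ..., x_n`. -/
noncomputable def configuration {n : ℕ} (m : Fin (n + 1) → ℝ) (x : Fin n → R3) :
    Fin (n + 1) → R3 :=
  Fin.snoc x (-((m (Fin.last n))⁻¹ • ∑ i : Fin n, m i.castSucc • x i))

/-- The Liouville measure of the energy surface `H = E` of the reduced problem of `n + 1` bodies, up
to a constant factor: `K ^ ((3 n - 2) / 2) dx dω`, where `x` runs over the positions of the first `n`
bodies, `K = U + E > 0` is the kinetic energy, and `dω` is the cone measure of the set of momenta of
kinetic energy `K`, i.e. the Lebesgue measure of the cone over the set, scaled to kinetic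
energy `≤ 1`. -/
noncomputable def liouville {n : ℕ} (m : Fin (n + 1) → ℝ) (E : ℝ) (A : Set (Phase (n + 1))) :
    ENNReal :=
  ∫⁻ x : Fin n → R3,
    if 0 < potential m (configuration m x) + E then
      ENNReal.ofReal ((potential m (configuration m x) + E) ^ ((3 * (n : ℝ) - 2) / 2)) *
        volume {P : Fin n → R3 | kinetic m (momenta P) ≤ 1 ∧
          (configuration m x, scaled m (potential m (configuration m x) + E) P) ∈ A}
    else 0

/-- The part of the energy surface on which all bodies are within `R` of the centre of mass. -/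
def ballPart {N : ℕ} (m : Fin N → ℝ) (E R : ℝ) : Set (Phase N) :=
  {z | z ∈ surface m E ∧ ∀ i, ‖z.1 i‖ ≤ R}

theorem liouville_eq (m : Fin 3 → ℝ) (E : ℝ) (A : Set (Phase 3)) :
    liouville (n := 2) m E A = Pool.Agent.L5helper85.NB.lv (n := 2) m E 2 A := by
  have h : (3 * ((2 : ℕ) : ℝ) - 2) / 2 = 2 := by norm_num
  unfold liouville Pool.Agent.L5helper85.NB.lv
  rw [h]
  rfl

/-- **Three bodies, negative energy.** There is `C > 0`, depending on the masses only, such that for
every energy `E < 0` and every `R ≥ C / |E|` the Liouville measure of the part `B_R` of the energy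
surface with all bodies within `R` of the centre of mass lies between `R ^ 3 / (C |E|)` and
`C R ^ 3 / |E|`, and for every complete flow obtained from the three-body flow on `H = E` by a smooth
positive change of time the set of the nonwandering points in `B_R` has Liouville measure at most
`(C / (|E| R)) ^ (3 / 2)` times that of `B_R`. -/
theorem result (m : Fin 3 → ℝ) (hm : ∀ i, 0 < m i) :
    ∃ C : ℝ, 0 < C ∧ ∀ E : ℝ, E < 0 → ∀ R : ℝ, C / |E| ≤ R →
      ENNReal.ofReal (R ^ 3 / (C * |E|)) ≤ liouville (n := 2) m E (ballPart m E R) ∧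
      liouville (n := 2) m E (ballPart m E R) ≤ ENNReal.ofReal (C * R ^ 3 / |E|) ∧
      ∀ (ψ : Phase 3 → ℝ) (φ : ℝ → Phase 3 → Phase 3), IsReparametrizedFlow m E ψ φ →
        liouville (n := 2) m E {z | z ∈ ballPart m E R ∧ IsNonwandering (surface m E) φ z} ≤
          ENNReal.ofReal ((C / (|E| * R)) ^ (3 / 2 : ℝ)) *
            liouville (n := 2) m E (ballPart m E R) := by
  obtain ⟨C, hC, h⟩ := Pool.Agent.L5helper85.NB.three m hm
  refine ⟨C + (C ^ 2) ^ (2 / 3 : ℝ), by positivity, ?_⟩
  intro E hE R hR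
  have hEp : 0 < |E| := abs_pos.2 hE.ne
  have hC' : C ≤ C + (C ^ 2) ^ (2 / 3 : ℝ) := by
    have : 0 ≤ (C ^ 2) ^ (2 / 3 : ℝ) := by positivity
    linarith
  have hR1 : C / |E| ≤ R := le_trans (by gcongr) hR
  have hRp : 0 < R := lt_of_lt_of_le (by positivity) hR1
  obtain ⟨h1, h2, h3⟩ := h E hE
  have h1R := h1 R hRp
  have h2R := h2 R hR1
  rw [liouville_eq]
  refine ⟨?_, ?_, ?_⟩
  · refine (ENNReal.ofReal_le_ofReal ?_).trans h2R
    gcongr
  · refine h1R.trans (ENNReal.ofReal_le_ofReal ?_)
    gcongr
  · intro ψ φ hφ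
    rw [liouville_eq]
    refine (h3 ψ φ ⟨hφ.smooth.continuousOn, hφ.pos, hφ.flow⟩ R hRp).trans ?_
    refine le_trans ?_ (mul_le_mul_right h2R _)
    rw [← ENNReal.ofReal_mul (by positivity)]
    refine ENNReal.ofReal_le_ofReal ?_
    have e1 : ((C + (C ^ 2) ^ (2 / 3 : ℝ)) / (|E| * R)) ^ (3 / 2 : ℝ) ≥
        C ^ 2 / (|E| * R) ^ (3 / 2 : ℝ) := by
      have e2 : C ^ 2 = ((C ^ 2) ^ (2 / 3 : ℝ)) ^ (3 / 2 : ℝ) := by
        rw [← Real.rpow_mul (by positivity)]; norm_num
      have e3 : C ^ 2 / (|E| * R) ^ (3 / 2 : ℝ) =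
          (((C ^ 2) ^ (2 / 3 : ℝ)) / (|E| * R)) ^ (3 / 2 : ℝ) := by
        rw [Real.div_rpow (by positivity) (by positivity), ← e2]
      rw [e3, ge_iff_le]
      gcongr
      linarith
    refine le_trans (le_of_eq ?_) (mul_le_mul_of_nonneg_right e1 (by positivity))
    rw [Real.mul_rpow hEp.le hRp.le]
    have e4 : R ^ (3 / 2 : ℝ) * R ^ (3 / 2 : ℝ) = R ^ 3 := by
      rw [← Real.rpow_add hRp, ← Real.rpow_natCast]; norm_num
    have e5 : |E| ^ (-(5 / 2) : ℝ) = 1 / (|E| ^ (3 / 2 : ℝ) * |E|) := by
      rw [Real.rpow_neg hEp.le, one_div]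
      congr 1
      rw [← Real.rpow_add_one hEp.ne']
      norm_num
    rw [e5, ← e4]
    field_simp

end Pool.Agent.Results.MP_70f7a7_an.ThreeBodyDensityZero
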